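import Mathlib
import Pool.Agent.MaxSub.Main
import Pool.Agent.MaxSubP.Group
import Pool.Agent.MaxSubP.Index

set_option autoImplicit false

namespace Pool.Agent.Results.MP_e8da98_al.EveryPrime

/-- For every prime `p` there is a finitely generated residually finite `p`-group with a maximal
subgroup of infinite index that is not normal. -/
theorem result (p : ℕ) (hp : p.Prime) :
    ∃ (G : Type) (_ : Group G), Group.FG G ∧ IsPGroup p G ∧
      (∀ g : G, g ≠ 1 → ∃ N : Subgroup G, N.Normal ∧ N.index ≠ 0 ∧ g ∉ N) ∧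
      ∃ M : Subgroup G, IsCoatom M ∧ ¬ M.Normal ∧ M.index = 0 := by
  have _ : Fact p.Prime := ⟨hp⟩
  by_cases h2 : p = 2
  · subst h2
    obtain ⟨K, _, _, _, w, h0, h1⟩ := Pool.Agent.MaxSub.exists_field
    obtain ⟨M, hM, hHM⟩ := Pool.Agent.MaxSub.exists_coatom (Pool.Agent.MaxSub.W_fg w)
      (Pool.Agent.MaxSub.H w) (Pool.Agent.MaxSub.H_ne_top w)
    have hn := Pool.Agent.MaxSub.not_normal w h0 h1 M hM.1 hHM
    exact ⟨Pool.Agent.MaxSub.W w, inferInstance, Pool.Agent.MaxSub.W_fg w,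
      Pool.Agent.MaxSub.W_pgroup w, Pool.Agent.MaxSub.W_rf w, M, hM, hn,
      by_contra fun hi => hn (Pool.Agent.MaxSubP.normal_of_index_ne_zero
        (Pool.Agent.MaxSub.W_pgroup w) M hM hi)⟩
  · obtain ⟨M, hM, hHM⟩ := Pool.Agent.MaxSub.exists_coatom (Pool.Agent.MaxSubP.W_fg (p := p))
      (Pool.Agent.MaxSubP.H p) Pool.Agent.MaxSubP.H_ne_top
    have hn := Pool.Agent.MaxSubP.not_normal h2 M hM.1 hHM
    exact ⟨Pool.Agent.MaxSubP.W p, inferInstance, Pool.Agent.MaxSubP.W_fg,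
      Pool.Agent.MaxSubP.W_pgroup h2, Pool.Agent.MaxSubP.W_rf, M, hM, hn,
      by_contra fun hi => hn (Pool.Agent.MaxSubP.normal_of_index_ne_zero
        (Pool.Agent.MaxSubP.W_pgroup h2) M hM hi)⟩

end Pool.Agent.Results.MP_e8da98_al.EveryPrime
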